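import Pool.Agent.helper12.DD.Spec2

/-!
# dw:TOW, the tower `G^Q ≤ G ≀ Q ≤ E'`
-/

set_option autoImplicit false

open Pool.Agent.helper49.Blk

namespace Pool.Agent.DD

section TOWsec

variable {G E : Type} [Group G] [Group E] {ι : G →* E} {hn : ι.range.Normal} {Q : Type} [Group Q]

theorem TOW_left (w : Wr G Q) (t : Q) : (wι ι hn Q w).1.left t = ι (w.left t) := rfl

theorem TOW_right (w : Wr G Q) : (wι ι hn Q w).1.right = w.right := rfl

theorem TOW_mull (x y : WE ι hn Q) (t : Q) :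
    (x * y).1.left t = x.1.left t * y.1.left (x.1.right⁻¹ * t) := rfl

theorem TOW_mulr (x y : WE ι hn Q) : (x * y).1.right = x.1.right * y.1.right := rfl

theorem TOW_invr (x : WE ι hn Q) : (x⁻¹).1.right = x.1.right⁻¹ := rfl

theorem TOW_invl (x : WE ι hn Q) (t : Q) : (x⁻¹).1.left t = (x.1.left (x.1.right * t))⁻¹ := by
  change ((x.1)⁻¹).left t = _
  rw [SemidirectProduct.inv_left]
  change ((x.1.left) ((x.1.right⁻¹)⁻¹ * t))⁻¹ = _
  rw [inv_inv]

theorem TOW_ext {x y : WE ι hn Q} (h1 : ∀ t, x.1.left t = y.1.left t)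
    (h2 : x.1.right = y.1.right) : x = y := by
  apply Subtype.ext
  apply SemidirectProduct.ext
  · funext t
    exact h1 t
  · exact h2

/-- Membership in the image of `W`. -/
theorem TOW_mem (x : WE ι hn Q) : (∃ w : Wr G Q, x = wι ι hn Q w) ↔ x.1.left 1 ∈ ι.range := by
  constructor
  · rintro ⟨w, rfl⟩
    exact ⟨w.left 1, rfl⟩
  · intro h
    have hall : ∀ t, x.1.left t ∈ ι.range := by
      intro t
      have h1 := mul_mem (x.2 t 1) h
      simpa using h1
    choose f hf using hall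
    refine ⟨⟨f, x.1.right⟩, ?_⟩
    apply TOW_ext
    · intro t
      rw [TOW_left]
      exact (hf t).symm
    · rfl

/-- The homomorphism to `E / G`. -/
theorem TOW_hom (hn : ι.range.Normal) :
    ∃ π : WE ι hn Q →* E ⧸ ι.range, ∀ x, π x = 1 ↔ x.1.left 1 ∈ ι.range := by
  refine ⟨{ toFun := fun x => (QuotientGroup.mk (x.1.left 1) : E ⧸ ι.range)
            map_one' := ?_
            map_mul' := ?_ }, ?_⟩
  · change (QuotientGroup.mk (1 : E) : E ⧸ ι.range) = 1
    rfl
  · intro x y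
    change (QuotientGroup.mk (x.1.left 1 * y.1.left (x.1.right⁻¹ * 1)) : E ⧸ ι.range) =
      QuotientGroup.mk (x.1.left 1 * y.1.left 1)
    rw [QuotientGroup.eq]
    have h1 := y.2 (x.1.right⁻¹ * 1) 1
    have h2 := hn.conj_mem _ (inv_mem h1) ((y.1.left 1)⁻¹)
    have e : (x.1.left 1 * y.1.left (x.1.right⁻¹ * 1))⁻¹ * (x.1.left 1 * y.1.left 1) =
        (y.1.left 1)⁻¹ * (y.1.left (x.1.right⁻¹ * 1) * (y.1.left 1)⁻¹)⁻¹ *
          ((y.1.left 1)⁻¹)⁻¹ := by
      group
    rw [e]
    exact h2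
  · intro x
    change (QuotientGroup.mk (x.1.left 1) : E ⧸ ι.range) = 1 ↔ _
    exact QuotientGroup.eq_one_iff _

/-- The homomorphism to `Q`. -/
def TOW_r (ι : G →* E) (hn : ι.range.Normal) (Q : Type) [Group Q] : WE ι hn Q →* Q where
  toFun x := x.1.right
  map_one' := rfl
  map_mul' _ _ := rfl

theorem TOW_V0 (x : WE ι hn Q) : x ∈ V0 ι hn Q ↔ x.1.right = 1 := Iff.rfl

theorem TOW_κ (w : Wr G Q) : w ∈ (κι G Q).range ↔ w.right = 1 := by
  constructor
  · rintro ⟨f, rfl⟩
    rfl
  · intro h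
    refine ⟨w.left, ?_⟩
    apply SemidirectProduct.ext
    · rfl
    · exact h.symm

end TOWsec

theorem TOW : TOW_stmt := by
  intro G E _ _ _ _ ι hn hinj Q _ _ hq hcop
  obtain ⟨π, hπ⟩ := TOW_hom (Q := Q) hn
  have hcomm : ∀ a b : Q, a * b = b * a := by
    have hf : Fact (Nat.card Q).Prime := ⟨hq⟩
    have hc : IsCyclic Q := isCyclic_of_prime_card (p := Nat.card Q) rfl
    intro a b
    exact (IsCyclic.commGroup (α := Q)).mul_comm a b
  have hrange : (wι ι hn Q).range = π.ker := by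
    ext x
    rw [MonoidHom.mem_ker, hπ, ← TOW_mem]
    constructor
    · rintro ⟨w, rfl⟩
      exact ⟨w, rfl⟩
    · rintro ⟨w, rfl⟩
      exact ⟨w, rfl⟩
  have hωnor : (wι ι hn Q).range.Normal := by
    rw [hrange]
    infer_instance
  have hωinj : Function.Injective (wι ι hn Q) := by
    intro x y hxy
    apply SemidirectProduct.ext
    · funext t
      apply hinj
      have h1 : (wι ι hn Q x).1.left t = (wι ι hn Q y).1.left t := by rw [hxy]
      exact h1
    · have h1 : (wι ι hn Q x).1.right = (wι ι hn Q y).1.right := by rw [hxy]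
      exact h1
  have hKr : ∀ x : WE ι hn Q, x ∈ ((wι ι hn Q).comp (κι G Q)).range ↔
      π x = 1 ∧ x.1.right = 1 := by
    intro x
    constructor
    · rintro ⟨f, rfl⟩
      refine ⟨?_, rfl⟩
      rw [hπ]
      exact ⟨f 1, rfl⟩
    · rintro ⟨h1, h2⟩
      rw [hπ, ← TOW_mem] at h1
      obtain ⟨w, rfl⟩ := h1
      have h3 : w ∈ (κι G Q).range := (TOW_κ w).2 h2
      obtain ⟨f, rfl⟩ := h3
      exact ⟨f, rfl⟩
  have hpow : ∀ e : WE ι hn Q, ∃ w : Wr G Q, e ^ Nat.card E = wι ι hn Q w := by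
    intro e
    rw [TOW_mem, ← hπ, map_pow]
    have h1 : Nat.card (E ⧸ ι.range) ∣ Nat.card E := Subgroup.card_quotient_dvd_card _
    obtain ⟨k, hk⟩ := h1
    rw [hk, pow_mul, pow_card_eq_one', one_pow]
  have hV0i : ∀ w : Wr G Q, wι ι hn Q w ∈ V0 ι hn Q → w ∈ (κι G Q).range := by
    intro w hw
    exact (TOW_κ w).2 hw
  have hcopr : ∀ c : Q, c ^ Nat.card E = 1 → c = 1 := by
    intro c hc
    have h1 : orderOf c ∣ Nat.card E := orderOf_dvd_of_pow_eq_one hc
    have h2 : orderOf c ∣ Nat.card Q := orderOf_dvd_natCard c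
    have h3 : orderOf c ∣ 1 := by
      have := Nat.dvd_gcd h2 h1
      rwa [hcop] at this
    exact orderOf_eq_one_iff.1 (Nat.dvd_one.1 h3)
  refine
    { κinj := SemidirectProduct.inl_injective
      ωinj := hωinj
      κnor := ?_
      ωκnor := ?_
      ωnor := hωnor
      card := ?_
      comm := ?_
      pow := hpow
      V0K := ?_
      V0i := hV0i
      V0s := ?_
      V0u := ?_
      V0m := ?_ }
  · rw [SemidirectProduct.range_inl_eq_ker_rightHom]
    infer_instance
  · constructor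
    intro x hx e
    rw [hKr] at hx ⊢
    refine ⟨?_, ?_⟩
    · rw [map_mul, map_mul, hx.1, mul_one, map_inv, mul_inv_cancel]
    · change e.1.right * x.1.right * e.1.right⁻¹ = 1
      rw [hx.2, mul_one, mul_inv_cancel]
  · rw [SemidirectProduct.card, mul_comm]
  · intro e w
    have h1 : e * wι ι hn Q w * e⁻¹ ∈ (wι ι hn Q).range := hωnor.conj_mem _ ⟨w, rfl⟩ e
    obtain ⟨w', hw'⟩ := h1
    have h2 : w'.right = w.right := by
      have h3 : (wι ι hn Q w').1.right = (e * wι ι hn Q w * e⁻¹).1.right := by rw [hw']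
      have h4 : w'.right = e.1.right * w.right * e.1.right⁻¹ := h3
      rw [h4, hcomm e.1.right w.right, mul_inv_cancel_right]
    refine ⟨w'.left * w.left⁻¹, ?_⟩
    rw [← hw']
    congr 1
    apply SemidirectProduct.ext
    · funext t
      change w'.left t = (w'.left t * (w.left t)⁻¹) * w.left ((1 : Q)⁻¹ * t)
      simp
    · change w'.right = 1 * w.right
      rw [h2, one_mul]
  · rintro x hx
    exact ((hKr x).1 hx).2
  · intro e
    refine ⟨⟨⟨e.1.left, 1⟩, e.2⟩, rfl, ⟨1, e.1.right⟩, ?_⟩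
    apply TOW_ext
    · intro t
      change e.1.left t = e.1.left t * ι 1
      simp
    · change e.1.right = 1 * e.1.right
      rw [one_mul]
  · intro V hKV hVi hVs
    have hle : V ≤ V0 ι hn Q := by
      intro v hv
      obtain ⟨w, hw⟩ := hpow v
      have h1 : wι ι hn Q w ∈ V := by
        rw [← hw]
        exact pow_mem hv _
      have h2 := (TOW_κ w).1 (hVi w h1)
      have h3 : TOW_r ι hn Q v ^ Nat.card E = 1 := by
        rw [← map_pow, hw]
        exact h2
      exact hcopr _ h3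
    apply le_antisymm hle
    intro e he
    obtain ⟨v, hv, w, rfl⟩ := hVs e
    have h1 : wι ι hn Q w ∈ V0 ι hn Q := by
      have := mul_mem (inv_mem (hle hv)) he
      simpa using this
    obtain ⟨f, rfl⟩ := hV0i w h1
    exact mul_mem hv (hKV ⟨f, rfl⟩)
  · intro V hV
    have hf : Fact (Nat.card Q).Prime := ⟨hq⟩
    rcases (V.map (TOW_r ι hn Q)).eq_bot_or_eq_top_of_prime_card with h | h
    · left
      apply le_antisymm _ hV
      intro v hv
      have h1 : TOW_r ι hn Q v ∈ V.map (TOW_r ι hn Q) := ⟨v, hv, rfl⟩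
      rw [h, Subgroup.mem_bot] at h1
      exact h1
    · right
      rw [eq_top_iff]
      intro e _
      have h1 : TOW_r ι hn Q e ∈ V.map (TOW_r ι hn Q) := by
        rw [h]
        exact Subgroup.mem_top _
      obtain ⟨v, hv, hve⟩ := h1
      have h2 : e * v⁻¹ ∈ V0 ι hn Q := by
        change e.1.right * (v.1.right)⁻¹ = 1
        have h3 : v.1.right = e.1.right := hve
        rw [h3, mul_inv_cancel]
      have h4 := mul_mem (hV h2) hv
      simpa using h4

end Pool.Agent.DD
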